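import Mathlib

/-!
# Hausdorff measures on the line with arbitrary gauges: definitions (helper88)
-/

set_option autoImplicit false

open MeasureTheory Set Filter Topology
open scoped ENNReal NNReal

namespace Pool.Agent.U88.GD

/-- A gauge function: a nondecreasing, right-continuous function `f : [0,∞) → [0,∞)` with
`f 0 = 0` and `f t > 0` for `t > 0`. -/
structure IsGauge (f : ℝ≥0 → ℝ≥0) : Prop where
  mono : Monotone f
  rightCont : ∀ t, ContinuousWithinAt f (Ici t) t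
  zero : f 0 = 0
  pos : ∀ t, 0 < t → 0 < f t

/-- `H^f_δ(A)`: the infimum of `∑ f (diam U_i)` over all countable covers of `A` by sets `U_i` with
`diam U_i ≤ δ`. (`Metric.ediam` is the diameter with values in `[0,∞]`.) -/
noncomputable def Hd (f : ℝ≥0 → ℝ≥0) (δ : ℝ≥0) (A : Set ℝ) : ℝ≥0∞ :=
  ⨅ (U : ℕ → Set ℝ) (_ : A ⊆ ⋃ i, U i) (_ : ∀ i, Metric.ediam (U i) ≤ (δ : ℝ≥0∞)),
    ∑' i, ((f (Metric.ediam (U i)).toNNReal : ℝ≥0) : ℝ≥0∞)

/-- `H^f(A) = lim_{δ → 0+} H^f_δ(A) = sup_{δ > 0} H^f_δ(A)`: the Hausdorff outer measure with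
gauge `f`. -/
noncomputable def H (f : ℝ≥0 → ℝ≥0) (A : Set ℝ) : ℝ≥0∞ :=
  ⨆ (δ : ℝ≥0) (_ : 0 < δ), Hd f δ A

/-- `X` is universally null: every Borel probability measure on the line without atoms gives `X`
outer measure zero. -/
def UnivNull (X : Set ℝ) : Prop :=
  ∀ μ : Measure ℝ, IsProbabilityMeasure μ → (∀ x, μ {x} = 0) → μ X = 0

/-- extension of `f` to `[0,∞]` -/
noncomputable def ext (f : ℝ≥0 → ℝ≥0) : ℝ≥0∞ → ℝ≥0∞ := fun r => ((f r.toNNReal : ℝ≥0) : ℝ≥0∞)

theorem Hd_anti (f : ℝ≥0 → ℝ≥0) {δ δ' : ℝ≥0} (h : δ ≤ δ') (A : Set ℝ) : Hd f δ' A ≤ Hd f δ A := by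
  unfold Hd
  refine le_iInf fun U => le_iInf fun hU => le_iInf fun hd => ?_
  exact iInf_le_of_le U (iInf_le_of_le hU (iInf_le_of_le
    (fun i => (hd i).trans (by exact_mod_cast h)) le_rfl))

/-- `H^f(A)` is the limit of `H^f_δ(A)` for `δ → 0+`. -/
theorem tendsto_Hd (f : ℝ≥0 → ℝ≥0) (A : Set ℝ) :
    Tendsto (fun δ => Hd f δ A) (𝓝[>] 0) (𝓝 (H f A)) := by
  rw [← tendsto_comp_coe_Ioi_atBot]
  unfold H
  rw [iSup_subtype']
  exact tendsto_atBot_iSup fun r r' hr => Hd_anti f hr A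

/-- The Hausdorff outer measure is Mathlib's metric measure. -/
theorem H_eq (f : ℝ≥0 → ℝ≥0) (h0 : f 0 = 0) (A : Set ℝ) :
    H f A = (Measure.mkMetric (ext f) : Measure ℝ) A := by
  rw [Measure.mkMetric_apply]
  have key : ∀ (U : ℕ → Set ℝ), (∑' n, ⨆ _ : (U n).Nonempty, ext f (Metric.ediam (U n))) =
      ∑' i, ((f (Metric.ediam (U i)).toNNReal : ℝ≥0) : ℝ≥0∞) := by
    intro U
    refine tsum_congr fun n => ?_
    rcases (U n).eq_empty_or_nonempty with h | h
    · rw [h]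
      simp [h0]
    · rw [iSup_pos h]
      rfl
  simp only [key]
  apply le_antisymm
  · unfold H
    refine iSup_le fun δ => iSup_le fun hδ => ?_
    exact le_iSup_of_le (δ : ℝ≥0∞) (le_iSup_of_le (by exact_mod_cast hδ) le_rfl)
  · refine iSup_le fun r => iSup_le fun hr => ?_
    unfold H
    by_cases hr' : r = ∞
    · refine le_iSup_of_le 1 (le_iSup_of_le one_pos ?_)
      unfold Hd
      refine le_iInf fun U => le_iInf fun hU => le_iInf fun hd => ?_
      exact iInf_le_of_le U (iInf_le_of_le hU (iInf_le_of_le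
        (fun i => by rw [hr']; exact le_top) le_rfl))
    · refine le_iSup_of_le r.toNNReal (le_iSup_of_le (ENNReal.toNNReal_pos hr.ne' hr') ?_)
      unfold Hd
      refine le_iInf fun U => le_iInf fun hU => le_iInf fun hd => ?_
      exact iInf_le_of_le U (iInf_le_of_le hU (iInf_le_of_le
        (fun i => (hd i).trans (by rw [ENNReal.coe_toNNReal hr'])) le_rfl))

end Pool.Agent.U88.GD
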