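import Mathlib

/-!
# Binary digits (helper88)
-/

set_option autoImplicit false

open Set Filter Topology

namespace Pool.Agent.U88.GD

/-- the real number with the binary digits `w` -/
noncomputable def num (w : ℕ → Bool) : ℝ :=
  Real.ofDigits (b := 2) (fun n => if w n then 1 else 0)

/-- the natural number with the binary digits `w 0, ..., w (n-1)` -/
def pre (w : ℕ → Bool) : ℕ → ℕ
  | 0 => 0
  | n + 1 => 2 * pre w n + if w n then 1 else 0

theorem pre_inj {w w' : ℕ → Bool} : ∀ {n : ℕ}, pre w n = pre w' n → ∀ i < n, w i = w' i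
  | 0, _, i, hi => absurd hi (Nat.not_lt_zero i)
  | n + 1, h, i, hi => by
    have h1 : 2 * pre w n + (if w n then 1 else 0) = 2 * pre w' n + (if w' n then 1 else 0) := h
    have h2 : w n = w' n := by
      cases hw : w n <;> cases hw' : w' n <;> simp [hw, hw'] at h1 ⊢ <;> omega
    have h3 : pre w n = pre w' n := by
      rw [h2] at h1; omega
    rcases Nat.lt_succ_iff_lt_or_eq.1 hi with h4 | h4
    · exact pre_inj h3 i h4
    · rw [h4]; exact h2

theorem num_mul_pow (w : ℕ → Bool) (n : ℕ) :
    num w * 2 ^ n = pre w n + num (fun i => w (i + n)) := by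
  have h := Real.ofDigits_eq_sum_add_ofDigits (b := 2) (fun n => if w n then 1 else 0) n
  have h1 : ∀ n : ℕ, (∑ i ∈ Finset.range n,
      Real.ofDigitsTerm (b := 2) (fun n => if w n then 1 else 0) i) * 2 ^ n = pre w n := by
    intro n
    induction n with
    | zero => simp [pre]
    | succ n ih =>
      rw [Finset.sum_range_succ, add_mul, pow_succ, ← mul_assoc, ih]
      simp only [pre, Real.ofDigitsTerm]
      push_cast
      rw [show (2 : ℝ) ^ n * 2 = 2 ^ (n + 1) by ring, mul_assoc,
        inv_mul_cancel₀ (by positivity)]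
      cases w n <;> simp <;> ring
  unfold num
  rw [h, add_mul, h1]
  congr 1
  push_cast
  rw [mul_comm, ← mul_assoc, mul_inv_cancel₀ (by positivity), one_mul]

theorem num_nonneg (w : ℕ → Bool) : 0 ≤ num w := Real.ofDigits_nonneg _

theorem num_lt_one {w : ℕ → Bool} {j : ℕ} (hj : w j = false) : num w < 1 := by
  rw [← Real.ofDigits_const_last_eq_one' (b := 2) (by norm_num)]
  unfold num Real.ofDigits
  refine Summable.tsum_lt_tsum (i := j) ?_ ?_ Real.summable_ofDigitsTerm Real.summable_ofDigitsTerm
  · intro n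
    simp only [Real.ofDigitsTerm]
    cases w n <;> simp
  · simp only [Real.ofDigitsTerm, hj]
    simp

/-- infinitely many digits are zero -/
def Good (w : ℕ → Bool) : Prop := ∀ n, ∃ j, n ≤ j ∧ w j = false

theorem floor_num {w : ℕ → Bool} (hw : Good w) (n : ℕ) : ⌊num w * 2 ^ n⌋₊ = pre w n := by
  obtain ⟨j, hj, hwj⟩ := hw n
  rw [num_mul_pow, Nat.floor_eq_iff (by have := num_nonneg (fun i => w (i + n)); positivity)]
  refine ⟨le_add_of_nonneg_right (num_nonneg _), ?_⟩
  have := num_lt_one (w := fun i => w (i + n)) (j := j - n) (by simpa [Nat.sub_add_cancel hj] using hwj)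
  linarith

/-- the `n`-th binary digit of `x` -/
noncomputable def bit (x : ℝ) (n : ℕ) : Bool := decide (⌊x * 2 ^ (n + 1)⌋₊ % 2 = 1)

theorem bit_num {w : ℕ → Bool} (hw : Good w) (n : ℕ) : bit (num w) n = w n := by
  have h : pre w (n + 1) = 2 * pre w n + if w n then 1 else 0 := rfl
  unfold bit
  rw [floor_num hw, Bool.eq_iff_iff, decide_eq_true_iff, h]
  by_cases hb : w n = true
  · rw [if_pos hb]; simp only [hb, iff_true]; omega
  · rw [if_neg hb]; simp only [hb]; simp

theorem measurable_bit (n : ℕ) : Measurable fun x : ℝ => bit x n := by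
  have h : Measurable fun x : ℝ => ⌊x * 2 ^ (n + 1)⌋₊ :=
    Nat.measurable_floor.comp (measurable_id.mul_const _)
  exact (measurable_from_top (f := fun m : ℕ => decide (m % 2 = 1))).comp h

end Pool.Agent.U88.GD
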