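import Pool.Agent.U88.GD.Soft
import Pool.Agent.U88.GD.Digits
import Pool.Agent.Y444.UN.NonOm
import Pool.Agent.Y444.UN.Cdf
import Pool.Agent.Y444.UN.Ind
import Pool.Agent.Y444.UN.Inj
import Pool.Agent.Y584.UN.Codes
import Pool.Agent.Y584.UN.Grz

/-!
# A universally null set of infinite `H^f` measure for every gauge with `f(t)/t → ∞` (helper88)
-/

set_option autoImplicit false

open MeasureTheory Set Filter Topology Cardinal
open scoped ENNReal NNReal

namespace Pool.Agent.U88.GD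

open Pool.Agent.Y444.UN

open Classical in
/-- the places below `n` in the range of `s` -/
noncomputable def inS (s : ℕ → ℕ) (n : ℕ) : Finset ℕ :=
  (Finset.range n).filter (fun i => i ∈ range s)

open Classical in
/-- the places below `n` outside the range of `s` -/
noncomputable def outS (s : ℕ → ℕ) (n : ℕ) : Finset ℕ :=
  (Finset.range n).filter (fun i => i ∉ range s)

theorem mem_inS {s : ℕ → ℕ} {n i : ℕ} : i ∈ inS s n ↔ i < n ∧ i ∈ range s := by
  classical
  unfold inS
  simp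

theorem mem_outS {s : ℕ → ℕ} {n i : ℕ} : i ∈ outS s n ↔ i < n ∧ i ∉ range s := by
  classical
  unfold outS
  simp

/-- A sparse set of places. -/
theorem sparse {g : ℕ → ℝ≥0} (hg : Tendsto g atTop atTop) (hpos : ∀ n, 0 < g n) :
    ∃ (K : ℝ≥0) (s : ℕ → ℕ), StrictMono s ∧
      ∀ n, (2 : ℝ≥0) ^ (inS s n).card ≤ K * g n := by
  classical
  obtain ⟨N0, hN0⟩ := (tendsto_atTop_atTop.1 hg) 1
  set K : ℝ≥0 := 1 + ∑ n ∈ Finset.range N0, (g n)⁻¹ with hK
  have hK1 : 1 ≤ K := le_add_of_nonneg_right (by positivity)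
  have h1 : ∀ n, 1 ≤ K * g n := by
    intro n
    rcases lt_or_ge n N0 with h | h
    · have h2 : (g n)⁻¹ ≤ K := by
        rw [hK]
        refine le_trans ?_ (le_add_of_nonneg_left (by positivity))
        exact Finset.single_le_sum (f := fun n => (g n)⁻¹) (fun i _ => by positivity)
          (Finset.mem_range.2 h)
      calc (1 : ℝ≥0) = (g n)⁻¹ * g n := (inv_mul_cancel₀ (hpos n).ne').symm
        _ ≤ K * g n := mul_le_mul_left h2 _
    · exact one_le_mul hK1 (hN0 n h)
  obtain ⟨s, hs, hs'⟩ := extraction_forall_of_eventually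
    (P := fun k m => ∀ n ≥ m, (2 : ℝ≥0) ^ (k + 1) ≤ g n) (by
      intro k
      obtain ⟨N, hN⟩ := (tendsto_atTop_atTop.1 hg) ((2 : ℝ≥0) ^ (k + 1))
      exact eventually_atTop.2 ⟨N, fun m hm n hn => hN n (hm.trans hn)⟩)
  refine ⟨K, s, hs, fun n => ?_⟩
  rcases ((Finset.range n).filter (fun k => s k < n)).eq_empty_or_nonempty with h | h
  · have h2 : (inS s n) = ∅ := by
      rw [Finset.eq_empty_iff_forall_notMem] at h ⊢
      intro i hi
      rw [mem_inS] at hi
      obtain ⟨hi, k, rfl⟩ := hi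
      exact h k (Finset.mem_filter.2 ⟨Finset.mem_range.2 (lt_of_le_of_lt (hs.id_le k) hi), hi⟩)
    rw [h2, Finset.card_empty, pow_zero]
    exact h1 n
  · set k0 := ((Finset.range n).filter (fun k => s k < n)).max' h with hk0
    have hk0m := Finset.max'_mem _ h
    rw [← hk0, Finset.mem_filter] at hk0m
    have h2 : (inS s n) ⊆ (Finset.range (k0 + 1)).image s := by
      intro i hi
      rw [mem_inS] at hi
      obtain ⟨hi, k, rfl⟩ := hi
      refine Finset.mem_image.2 ⟨k, ?_, rfl⟩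
      rw [Finset.mem_range, Nat.lt_succ_iff]
      exact Finset.le_max' _ _
        (Finset.mem_filter.2 ⟨Finset.mem_range.2 (lt_of_le_of_lt (hs.id_le k) hi), hi⟩)
    have h3 : (inS s n).card ≤ k0 + 1 := by
      refine (Finset.card_le_card h2).trans (Finset.card_image_le.trans ?_)
      rw [Finset.card_range]
    calc (2 : ℝ≥0) ^ (inS s n).card ≤ 2 ^ (k0 + 1) :=
          pow_le_pow_right₀ (by norm_num) h3
      _ ≤ g n := hs' k0 n hk0m.2.le
      _ ≤ K * g n := le_mul_of_one_le_left' hK1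

/-- the equivalence of the index set with the natural numbers -/
noncomputable def eN : Idx ≃ ℕ := Denumerable.eqv Idx

/-- the digits: zeros at the places `s (2k)`, the code `z` at the places `s (2k+1)` and the point
`y` elsewhere -/
noncomputable def wrd (s : ℕ → ℕ) (z : ℕ → Bool) (y : Om) : ℕ → Bool :=
  Function.extend s (fun k => if k % 2 = 0 then false else z (k / 2)) (fun n => y (eN.symm n))

theorem wrd_s {s : ℕ → ℕ} (hs : StrictMono s) (z : ℕ → Bool) (y : Om) (k : ℕ) :
    wrd s z y (s k) = if k % 2 = 0 then false else z (k / 2) :=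
  hs.injective.extend_apply _ _ _

theorem wrd_out {s : ℕ → ℕ} (z : ℕ → Bool) (y : Om) {n : ℕ} (hn : n ∉ range s) :
    wrd s z y n = y (eN.symm n) :=
  Function.extend_apply' _ _ _ hn

theorem wrd_good {s : ℕ → ℕ} (hs : StrictMono s) (z : ℕ → Bool) (y : Om) : Good (wrd s z y) := by
  intro n
  refine ⟨s (2 * n), ?_, ?_⟩
  · exact (Nat.le_mul_of_pos_left n two_pos).trans (hs.id_le _)
  · rw [wrd_s hs]; simp

/-- The mass of the points whose expansion begins in a given way. -/
theorem cyl (s : ℕ → ℕ) (E : Set Om) (z : Om → ℕ → Bool) (hs : StrictMono s) (n m : ℕ) :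
    P {y | y ∈ E ∧ ⌊num (wrd s (z y) y) * 2 ^ n⌋₊ = m} ≤
      (2 : ℝ≥0∞)⁻¹ ^ (outS s n).card := by
  classical
  rcases {y | y ∈ E ∧ ⌊num (wrd s (z y) y) * 2 ^ n⌋₊ = m}.eq_empty_or_nonempty with h | ⟨y₁, hy₁⟩
  · rw [h]; simp
  · set Hn : Finset Idx := (outS s n).map
      eN.symm.toEmbedding with hHn
    have h1 := ind_main Set.univ Hn y₁ MeasurableSet.univ (fun _ _ _ _ => mem_univ _)
    rw [measure_univ, mul_one, univ_inter, hHn, Finset.card_map] at h1
    rw [← h1]
    refine measure_mono ?_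
    intro y hy
    have h2 : pre (wrd s (z y) y) n = pre (wrd s (z y₁) y₁) n := by
      rw [← floor_num (wrd_good hs _ _), ← floor_num (wrd_good hs _ _), hy.2, hy₁.2]
    intro k hk
    rw [Finset.mem_map] at hk
    obtain ⟨i, hi, rfl⟩ := hk
    rw [mem_outS] at hi
    have h3 := pre_inj h2 i hi.1
    rw [wrd_out _ _ hi.2, wrd_out _ _ hi.2] at h3
    exact h3

theorem card_filter_out (s : ℕ → ℕ) (n : ℕ) :
    (inS s n).card +
      (outS s n).card = n := by
  classical
  have := Finset.card_filter_add_card_filter_not (s := Finset.range n) (p := fun i => i ∈ range s)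
  rw [Finset.card_range] at this
  unfold inS outS
  convert this

theorem floor_near {x y : ℝ} (h : |x - y| ≤ 1) : ⌊x⌋₊ = ⌊y⌋₊ - 1 ∨ ⌊x⌋₊ = ⌊y⌋₊ ∨
    ⌊x⌋₊ = ⌊y⌋₊ + 1 := by
  rw [abs_le] at h
  have h1 : ⌊x⌋₊ ≤ ⌊y⌋₊ + 1 := by
    rcases le_or_gt 0 y with hy | hy
    · rw [← Nat.floor_add_one hy]
      exact Nat.floor_le_floor (by linarith)
    · have : ⌊x⌋₊ ≤ ⌊(1 : ℝ)⌋₊ := Nat.floor_le_floor (by linarith)
      rw [Nat.floor_one] at this
      omega
  have h2 : ⌊y⌋₊ ≤ ⌊x⌋₊ + 1 := by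
    rcases le_or_gt 0 x with hx | hx
    · rw [← Nat.floor_add_one hx]
      exact Nat.floor_le_floor (by linarith)
    · have : ⌊y⌋₊ ≤ ⌊(1 : ℝ)⌋₊ := Nat.floor_le_floor (by linarith)
      rw [Nat.floor_one] at this
      omega
  omega

/-- **Main construction.** -/
theorem negative {f : ℝ≥0 → ℝ≥0} (hf : IsGauge f)
    (ht : Tendsto (fun t : ℝ≥0 => f t / t) (𝓝[>] 0) atTop) :
    ∃ A : Set ℝ, UnivNull A ∧ H f A = ∞ := by
  classical
  -- the sets `E` and `Z`
  obtain ⟨E, hE0, hEc⟩ := No.nonOm ind cdfStm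
  obtain ⟨Z, hZ, hZc⟩ := Pool.Agent.Y584.UN.Grz.t Pool.Agent.Y584.UN.Codes.t inj
  have hne : nonOf IsUN = nonOf IsNull := (addle cdfStm).2
  have hEZ : #E = #Z := by rw [hEc, hZc, hne]
  obtain ⟨φ⟩ := Cardinal.eq.1 hEZ
  -- the coding
  let c : ℝ ≃ᵐ (ℕ → Bool) := PolishSpace.measurableEquivOfNotCountable
    (fun h => by
      have := h
      exact absurd (Set.countable_univ (α := ℝ)) (Cardinal.not_countable_real))
    (No.not_countable_fun ℕ)
  let z : Om → ℕ → Bool := fun y => if h : y ∈ E then c (φ ⟨y, h⟩ : ℝ) else fun _ => false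
  have hz : ∀ y (h : y ∈ E), z y = c (φ ⟨y, h⟩ : ℝ) := fun y h => dif_pos h
  -- the places
  let g : ℕ → ℝ≥0 := fun n => f ((2 : ℝ≥0)⁻¹ ^ (n + 1)) / (2 : ℝ≥0)⁻¹ ^ (n + 1)
  have hpow : ∀ n : ℕ, 0 < (2 : ℝ≥0)⁻¹ ^ n := fun n => by positivity
  have hgt : Tendsto g atTop atTop := by
    refine ht.comp (f := fun n : ℕ => (2 : ℝ≥0)⁻¹ ^ (n + 1)) ?_
    refine tendsto_nhdsWithin_iff.2 ⟨?_, Eventually.of_forall fun n => hpow _⟩
    have h1 : Tendsto (fun n : ℕ => (2 : ℝ≥0)⁻¹ ^ n) atTop (𝓝 0) :=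
      NNReal.tendsto_pow_atTop_nhds_zero_of_lt_one (by
        rw [← NNReal.coe_lt_coe]; push_cast; norm_num)
    exact h1.comp (tendsto_add_atTop_nat 1)
  have hgp : ∀ n, 0 < g n := fun n => div_pos (hf.pos _ (hpow _)) (hpow _)
  obtain ⟨K, s, hs, hK⟩ := sparse hgt hgp
  let p : Om → ℝ := fun y => num (wrd s (z y) y)
  have hbit : ∀ y, (fun k => bit (p y) (s (2 * k + 1))) = z y := by
    intro y
    funext k
    show bit (num _) _ = _
    rw [bit_num (wrd_good hs _ _), wrd_s hs, if_neg (by omega)]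
    congr 1
    omega
  let G : ℝ → ℝ := fun x => c.symm (fun k => bit x (s (2 * k + 1)))
  have hG : Measurable G := c.symm.measurable.comp
    (measurable_pi_iff.2 fun k => measurable_bit _)
  have hGp : ∀ y (h : y ∈ E), G (p y) = φ ⟨y, h⟩ := by
    intro y h
    show c.symm _ = _
    rw [hbit, hz y h, c.symm_apply_apply]
  have hinj : ∀ y ∈ E, ∀ y' ∈ E, p y = p y' → y = y' := by
    intro y hy y' hy' h
    have h1 : G (p y) = G (p y') := by rw [h]
    rw [hGp y hy, hGp y' hy'] at h1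
    have h2 := φ.injective (Subtype.ext h1)
    exact congrArg Subtype.val h2
  set A : Set ℝ := p '' E with hA
  have hAUN : UnivNull A := by
    refine inj ℝ ℝ G A hG ?_ ?_
    · rintro _ ⟨y, hy, rfl⟩ _ ⟨y', hy', rfl⟩ h
      rw [hGp y hy, hGp y' hy'] at h
      have h2 := φ.injective (Subtype.ext h)
      exact congrArg p (congrArg Subtype.val h2)
    · have hsub : G '' A ⊆ Z := by
        rintro _ ⟨_, ⟨y, hy, rfl⟩, rfl⟩
        rw [hGp y hy]
        exact (φ ⟨y, hy⟩).2
      intro μ h1 h2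
      exact measure_mono_null hsub (hZ μ h1 h2)
  refine ⟨A, hAUN, ?_⟩
  rcases zero_or_top hf.zero hAUN with h0 | h0
  · exfalso
    rw [H_eq f hf.zero] at h0
    -- the outer measure
    let ν : OuterMeasure ℝ := OuterMeasure.map p (OuterMeasure.restrict E P.toOuterMeasure)
    have hν : ∀ U : Set ℝ, ν U = P (p ⁻¹' U ∩ E) := fun U => by
      show (OuterMeasure.map p (OuterMeasure.restrict E P.toOuterMeasure)) U = _
      rw [OuterMeasure.map_apply, OuterMeasure.restrict_apply]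
      rfl
    have hνA : ν A ≠ 0 := by
      rw [hν, hA]
      have : p ⁻¹' (p '' E) ∩ E = E := inter_eq_self_of_subset_right (subset_preimage_image p E)
      rw [this]
      exact hE0
    have key : ∀ U : Set ℝ, Metric.ediam U ≤ (2 : ℝ≥0∞)⁻¹ →
        ν U ≤ ((6 * K : ℝ≥0) • ext f) (Metric.ediam U) := by
      intro U hU
      rw [hν]
      have hUfin : Metric.ediam U ≠ ∞ := ne_top_of_le_ne_top (by simp) hU
      rcases (p ⁻¹' U ∩ E).eq_empty_or_nonempty with hem | ⟨y₀, hy₀⟩
      · rw [hem]; simp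
      rcases eq_or_ne (Metric.ediam U) 0 with hd0 | hd0
      · have hsub : p ⁻¹' U ∩ E ⊆ {y₀} := by
          intro y hy
          have h1 : (p y) = (p y₀) := by
            have := Metric.ediam_eq_zero_iff.1 hd0
            exact this hy.1 hy₀.1
          exact hinj y hy.2 y₀ hy₀.2 h1
        rw [measure_mono_null hsub (P_singleton y₀)]
        exact bot_le
      · set d : ℝ≥0 := (Metric.ediam U).toNNReal with hd
        have hdpos : 0 < d := ENNReal.toNNReal_pos hd0 hUfin
        have hd' : Metric.ediam U = d := (ENNReal.coe_toNNReal hUfin).symm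
        have hd1 : d ≤ 1 := by
          have h1 : (d : ℝ≥0∞) ≤ 1 := by
            rw [← hd']
            exact hU.trans (by simp)
          exact_mod_cast h1
        obtain ⟨n, hn1, hn2⟩ := exists_nat_pow_near_of_lt_one (x := (d : ℝ)) (y := (2 : ℝ)⁻¹)
          (by exact_mod_cast hdpos) (by exact_mod_cast hd1) (by norm_num) (by norm_num)
        have hsub : p ⁻¹' U ∩ E ⊆
            {y | y ∈ E ∧ ⌊num (wrd s (z y) y) * 2 ^ n⌋₊ = ⌊p y₀ * 2 ^ n⌋₊ - 1} ∪
            ({y | y ∈ E ∧ ⌊num (wrd s (z y) y) * 2 ^ n⌋₊ = ⌊p y₀ * 2 ^ n⌋₊} ∪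
            {y | y ∈ E ∧ ⌊num (wrd s (z y) y) * 2 ^ n⌋₊ = ⌊p y₀ * 2 ^ n⌋₊ + 1}) := by
          intro y hy
          have h1 : edist (p y) (p y₀) ≤ d := by
            rw [← hd']; exact Metric.edist_le_ediam_of_mem hy.1 hy₀.1
          have h2 : |p y - p y₀| ≤ d := by
            rw [edist_nndist] at h1
            have h3 : nndist (p y) (p y₀) ≤ d := by exact_mod_cast h1
            have h4 : dist (p y) (p y₀) ≤ d := by exact_mod_cast h3
            rwa [Real.dist_eq] at h4
          have h3 : |p y * 2 ^ n - p y₀ * 2 ^ n| ≤ 1 := by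
            rw [← sub_mul, abs_mul, abs_of_pos (show (0 : ℝ) < 2 ^ n by positivity)]
            calc |p y - p y₀| * 2 ^ n ≤ (2 : ℝ)⁻¹ ^ n * 2 ^ n :=
                  mul_le_mul_of_nonneg_right (h2.trans hn2) (by positivity)
              _ = 1 := by rw [← mul_pow]; norm_num
          rcases floor_near h3 with h | h | h
          · exact Or.inl ⟨hy.2, h⟩
          · exact Or.inr (Or.inl ⟨hy.2, h⟩)
          · exact Or.inr (Or.inr ⟨hy.2, h⟩)
        set q : ℝ≥0∞ := (2 : ℝ≥0∞)⁻¹ ^ (outS s n).card with hq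
        have h3q : P (p ⁻¹' U ∩ E) ≤ q + (q + q) := by
          refine (measure_mono hsub).trans ((measure_union_le _ _).trans ?_)
          refine add_le_add (cyl s E z hs n _) ((measure_union_le _ _).trans ?_)
          exact add_le_add (cyl s E z hs n _) (cyl s E z hs n _)
        refine h3q.trans ?_
        -- compute
        have hqn : q = (((2 : ℝ≥0)⁻¹ ^ (outS s n).card : ℝ≥0)
            : ℝ≥0∞) := by
          rw [hq, ENNReal.coe_pow, ENNReal.coe_inv two_ne_zero]
          rfl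
        have hmul : ((2 : ℝ≥0)⁻¹ ^ (outS s n).card : ℝ≥0) ≤
            2 * K * f d := by
          have h1 := hK n
          have h2 := card_filter_out s n
          set a := (inS s n).card
          set b := (outS s n).card
          have h4 : (2 : ℝ≥0)⁻¹ ^ b = 2 ^ a * (2 : ℝ≥0)⁻¹ ^ n := by
            rw [← h2, pow_add, ← mul_assoc, ← mul_pow, mul_inv_cancel₀ two_ne_zero, one_pow,
              one_mul]
          rw [h4]
          have h5 : f ((2 : ℝ≥0)⁻¹ ^ (n + 1)) ≤ f d := by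
            apply hf.mono
            have : ((2 : ℝ≥0)⁻¹ ^ (n + 1) : ℝ≥0) < d := by
              rw [← NNReal.coe_lt_coe]; push_cast; exact hn1
            exact this.le
          calc (2 : ℝ≥0) ^ a * (2 : ℝ≥0)⁻¹ ^ n ≤ K * g n * (2 : ℝ≥0)⁻¹ ^ n :=
                mul_le_mul_left h1 _
            _ = 2 * K * f ((2 : ℝ≥0)⁻¹ ^ (n + 1)) := by
                show K * (f ((2 : ℝ≥0)⁻¹ ^ (n + 1)) / (2 : ℝ≥0)⁻¹ ^ (n + 1)) * (2 : ℝ≥0)⁻¹ ^ n = _
                rw [pow_succ]
                field_simp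
            _ ≤ 2 * K * f d := mul_le_mul_right h5 _
        have hfin : q + (q + q) = ((3 * (2 : ℝ≥0)⁻¹ ^
            (outS s n).card : ℝ≥0) : ℝ≥0∞) := by
          rw [hqn]
          push_cast
          ring
        rw [hfin]
        show _ ≤ ((6 * K : ℝ≥0) : ℝ≥0∞) * ((f (Metric.ediam U).toNNReal : ℝ≥0) : ℝ≥0∞)
        rw [← hd, ← ENNReal.coe_mul, ENNReal.coe_le_coe]
        calc 3 * (2 : ℝ≥0)⁻¹ ^ (outS s n).card
            ≤ 3 * (2 * K * f d) := mul_le_mul_right hmul _
          _ = 6 * K * f d := by ring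
    have hle := OuterMeasure.le_mkMetric ((6 * K : ℝ≥0) • ext f) ν (2 : ℝ≥0∞)⁻¹ (by simp) key
    have hle' := hle A
    have hK0 : (6 * K : ℝ≥0) ≠ 0 := by
      intro hk
      have h1 := hK 0
      have h2 : K = 0 := by
        rcases mul_eq_zero.1 hk with h | h
        · norm_num at h
        · exact h
      rw [h2, zero_mul] at h1
      exact absurd h1 (not_le.2 (by positivity))
    rw [OuterMeasure.mkMetric_nnreal_smul _ hK0, smul_apply,
      OuterMeasure.coe_mkMetric, h0, smul_zero] at hle'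
    exact hνA (le_antisymm hle' bot_le)
  · exact h0

end Pool.Agent.U88.GD
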