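import Pool.Agent.U88.GD.Defs

/-!
# The soft half: universally null sets have no subsets of finite positive measure; gauges which are
frequently below a linear function (helper88)
-/

set_option autoImplicit false

open MeasureTheory Set Filter Topology
open scoped ENNReal NNReal

namespace Pool.Agent.U88.GD

theorem mk_singleton {f : ℝ≥0 → ℝ≥0} (h0 : f 0 = 0) (x : ℝ) :
    (Measure.mkMetric (ext f) : Measure ℝ) {x} = 0 := by
  rw [← H_eq f h0]
  unfold H
  refine le_antisymm (iSup_le fun δ => iSup_le fun hδ => ?_) bot_le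
  unfold Hd
  refine iInf_le_of_le (fun _ => {x}) (iInf_le_of_le (by intro y hy; exact mem_iUnion.2 ⟨0, hy⟩)
    (iInf_le_of_le (fun i => by simp) ?_))
  simp [h0]

/-- In a universally null set every subset has `H^f` measure zero or infinity. -/
theorem zero_or_top {f : ℝ≥0 → ℝ≥0} (h0 : f 0 = 0) {A₀ : Set ℝ}
    (hA : UnivNull A₀) : H f A₀ = 0 ∨ H f A₀ = ∞ := by
  by_contra hcon
  push Not at hcon
  obtain ⟨hne, hfin⟩ := hcon
  rw [H_eq f h0] at hne hfin
  set μ : Measure ℝ := Measure.mkMetric (ext f) with hμ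
  set B := toMeasurable μ A₀ with hB
  have hBm : MeasurableSet B := measurableSet_toMeasurable μ A₀
  have hBμ : μ B = μ A₀ := measure_toMeasurable A₀
  have hsub : A₀ ⊆ B := subset_toMeasurable μ A₀
  set c : ℝ≥0∞ := (μ B)⁻¹ with hc
  have hp : IsProbabilityMeasure (c • μ.restrict B) := by
    constructor
    rw [Measure.smul_apply, smul_eq_mul, Measure.restrict_apply MeasurableSet.univ, univ_inter, hc]
    exact ENNReal.inv_mul_cancel (by rw [hBμ]; exact hne) (by rw [hBμ]; exact hfin)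
  have hat : ∀ x, (c • μ.restrict B) {x} = 0 := by
    intro x
    rw [Measure.smul_apply, smul_eq_mul, Measure.restrict_apply (measurableSet_singleton x),
      measure_mono_null inter_subset_left (mk_singleton h0 x), mul_zero]
  have := hA _ hp hat
  rw [Measure.smul_apply, smul_eq_mul, Measure.restrict_apply' hBm,
    inter_eq_self_of_subset_left hsub] at this
  rcases mul_eq_zero.1 this with h | h
  · rw [hc, ENNReal.inv_eq_zero, hBμ] at h
    exact hfin h
  · exact hne h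

/-- If `f(t) ≤ c t` for arbitrarily small `t > 0` then `H^f` is finite on bounded sets. -/
theorem unit_le {f : ℝ≥0 → ℝ≥0} (h0 : f 0 = 0) (hm : Monotone f) (c : ℝ≥0)
    (hc : ∀ δ : ℝ≥0, 0 < δ → ∃ t, 0 < t ∧ t < δ ∧ f t ≤ c * t) (a : ℝ) :
    H f (Icc a (a + 1)) ≤ 2 * c := by
  unfold H
  refine iSup_le fun δ => iSup_le fun hδ => ?_
  obtain ⟨t, ht0, htδ, hft⟩ := hc (min δ 1) (lt_min hδ one_pos)
  have ht1 : (t : ℝ) < 1 := by exact_mod_cast htδ.trans_le (min_le_right _ _)
  have htδ' : t ≤ δ := (htδ.trans_le (min_le_left _ _)).le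
  have ht0' : (0 : ℝ) < t := by exact_mod_cast ht0
  set N : ℕ := ⌊(1 : ℝ) / t⌋₊ + 1 with hN
  let U : ℕ → Set ℝ := fun i => if i < N then Icc (a + i * t) (a + (i + 1) * t) else ∅
  have hcov : Icc a (a + 1) ⊆ ⋃ i, U i := by
    intro x hx
    set i : ℕ := ⌊(x - a) / t⌋₊ with hi
    have hx0 : 0 ≤ (x - a) / t := div_nonneg (by linarith [hx.1]) ht0'.le
    have h1 : (i : ℝ) ≤ (x - a) / t := Nat.floor_le hx0
    have h2 : (x - a) / t < i + 1 := Nat.lt_floor_add_one _
    have h3 : i < N := by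
      rw [hN, Nat.lt_add_one_iff, hi]
      apply Nat.floor_le_floor
      exact div_le_div_of_nonneg_right (by linarith [hx.2]) ht0'.le
    refine mem_iUnion.2 ⟨i, ?_⟩
    show x ∈ if i < N then Icc (a + i * t) (a + (i + 1) * t) else ∅
    rw [if_pos h3]
    rw [le_div_iff₀ ht0'] at h1
    rw [div_lt_iff₀ ht0'] at h2
    exact ⟨by linarith, by linarith⟩
  have hdiam : ∀ i, Metric.ediam (U i) ≤ (t : ℝ≥0∞) := by
    intro i
    show Metric.ediam (if i < N then Icc (a + i * (t : ℝ)) (a + (i + 1) * t) else ∅) ≤ _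
    split_ifs with h
    · rw [Real.ediam_Icc]
      have : a + (i + 1) * (t : ℝ) - (a + i * t) = t := by ring
      rw [this]
      exact (ENNReal.ofReal_coe_nnreal).le
    · simp
  have hzero : ∀ i, N ≤ i → Metric.ediam (U i) = 0 := by
    intro i hi
    show Metric.ediam (if i < N then Icc (a + i * (t : ℝ)) (a + (i + 1) * t) else ∅) = 0
    rw [if_neg (not_lt.2 hi)]
    simp
  unfold Hd
  refine iInf_le_of_le U (iInf_le_of_le hcov (iInf_le_of_le
    (fun i => (hdiam i).trans (by exact_mod_cast htδ')) ?_))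
  have hle : ∀ i, ((f (Metric.ediam (U i)).toNNReal : ℝ≥0) : ℝ≥0∞) ≤
      if i ∈ Finset.range N then (f t : ℝ≥0∞) else 0 := by
    intro i
    by_cases hi : i < N
    · rw [if_pos (Finset.mem_range.2 hi)]
      have h1 : (Metric.ediam (U i)).toNNReal ≤ t := by
        have := ENNReal.toNNReal_mono (by simp) (hdiam i)
        simpa using this
      exact_mod_cast hm h1
    · rw [if_neg (by rwa [Finset.mem_range]), hzero i (not_lt.1 hi)]
      simp [h0]
  refine (ENNReal.tsum_le_tsum hle).trans ?_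
  rw [tsum_eq_sum (s := Finset.range N) (by intro b hb; rw [if_neg hb])]
  rw [Finset.sum_ite_mem, Finset.inter_self, Finset.sum_const, Finset.card_range, nsmul_eq_mul]
  have h4 : ((N : ℝ≥0) * f t) ≤ 2 * c := by
    have h5 : ((N : ℝ≥0) * f t) ≤ N * (c * t) := mul_le_mul_right hft _
    refine h5.trans ?_
    have h6 : ((N : ℝ≥0) * t : ℝ≥0) ≤ 2 := by
      have h7 : (N : ℝ) * t ≤ 2 := by
        have h8 : (⌊(1 : ℝ) / t⌋₊ : ℝ) ≤ 1 / t := Nat.floor_le (by positivity)
        have h9 : (N : ℝ) ≤ 1 / t + 1 := by rw [hN]; push_cast; linarith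
        calc (N : ℝ) * t ≤ (1 / t + 1) * t := mul_le_mul_of_nonneg_right h9 ht0'.le
          _ = 1 + t := by field_simp
          _ ≤ 2 := by linarith
      exact_mod_cast h7
    calc (N : ℝ≥0) * (c * t) = c * (N * t) := by ring
      _ ≤ c * 2 := mul_le_mul_right h6 _
      _ = 2 * c := by ring
  exact_mod_cast h4

/-- The positive half of the dichotomy. -/
theorem positive {f : ℝ≥0 → ℝ≥0} (hf : IsGauge f)
    (hnt : ¬ Tendsto (fun t : ℝ≥0 => f t / t) (𝓝[>] 0) atTop)
    {A : Set ℝ} (hA : 0 < H f A) : ∃ A₀ ⊆ A, 0 < H f A₀ ∧ H f A₀ < ∞ := by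
  obtain ⟨c, hc⟩ : ∃ c : ℝ≥0, ∃ᶠ t in 𝓝[>] (0 : ℝ≥0), f t / t < c := by
    by_contra hcon
    push Not at hcon
    apply hnt
    rw [tendsto_atTop]
    intro b
    have := hcon b
    exact this
  have hc' : ∀ δ : ℝ≥0, 0 < δ → ∃ t, 0 < t ∧ t < δ ∧ f t ≤ c * t := by
    intro δ hδ
    have h1 : ∀ᶠ t in 𝓝[>] (0 : ℝ≥0), t ∈ Ioo 0 δ := Ioo_mem_nhdsGT hδ
    obtain ⟨t, ht, ht'⟩ := (hc.and_eventually h1).exists
    refine ⟨t, ht'.1, ht'.2, ?_⟩
    rw [div_lt_iff₀ ht'.1] at ht
    exact ht.le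
  set μ : Measure ℝ := Measure.mkMetric (ext f) with hμ
  have hex : ∃ n : ℤ, μ (A ∩ Icc (n : ℝ) (n + 1)) ≠ 0 := by
    by_contra hcon
    push Not at hcon
    rw [H_eq f hf.zero] at hA
    apply hA.ne'
    have : A ⊆ ⋃ n : ℤ, A ∩ Icc (n : ℝ) (n + 1) := by
      intro x hx
      exact mem_iUnion.2 ⟨⌊x⌋, hx, Int.floor_le x, (Int.lt_floor_add_one x).le⟩
    exact measure_mono_null this (measure_iUnion_null hcon)
  obtain ⟨n, hn⟩ := hex
  refine ⟨A ∩ Icc (n : ℝ) (n + 1), inter_subset_left, ?_, ?_⟩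
  · rw [H_eq f hf.zero]
    exact pos_iff_ne_zero.2 hn
  · have h1 : H f (A ∩ Icc (n : ℝ) (n + 1)) ≤ H f (Icc (n : ℝ) (n + 1)) := by
      rw [H_eq f hf.zero, H_eq f hf.zero]
      exact measure_mono inter_subset_right
    refine lt_of_le_of_lt (h1.trans (unit_le hf.zero hf.mono c hc' n)) ?_
    exact ENNReal.mul_lt_top (by simp) (by simp)

end Pool.Agent.U88.GD
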